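import Pool.Agent.Helper93.IA.StC

/-!
# Project IA, part C (MP_953b28_co), module MTA: the matching step
-/

set_option autoImplicit false

namespace Pool.Agent.Helper78.IAC

open Pool.Agent.Helper93.IA
open Finset

private theorem sub_card {α : Type} [Fintype α] [DecidableEq α] (U1 : Finset α) (p : α → Prop)
    [DecidablePred p] :
    ((univ : Finset {a // a ∉ U1}).filter fun i => p i.1).card ≤ (univ.filter fun a => p a).card := by
  refine Finset.card_le_card_of_injOn (fun i => i.1) ?_ ?_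
  · intro i hi
    simp only [coe_filter, mem_univ, true_and, Set.mem_ofPred_eq] at hi ⊢
    exact hi
  · intro i _ j _ h
    exact Subtype.ext h

theorem hMTA : StMTA := by
  intro hMAT α β γ _ _ _ _ _ _ n S H K U1 t b R D μ hα hβ hγ hR hS hK hbal hdeg hT1 hT2 hM1 hM2
    hD1 hD2 hpot
  classical
  obtain ⟨M, hbij, hMH, hdis⟩ := hMAT β γ {a // a ∉ U1} H
    (fun i => univ.filter fun b' => (i.1, b') ∈ S) (fun i => univ.filter fun c => (c, i.1) ∈ K)
    t b R D μ hR
    (fun i => by rw [← d1_eq, ← d2_eq]; exact hbal i.1 i.2)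
    (fun i => by rw [← d1_eq]; exact hdeg i.1 i.2)
    (fun i x hx => by
      rw [Finset.filter_filter]
      exact hT1 i.1 i.2 x (Finset.mem_filter.1 hx).2)
    (fun i y hy => by
      rw [Finset.filter_filter]
      exact hT2 i.1 i.2 y (Finset.mem_filter.1 hy).2)
    (fun i j hij => by
      rw [← Finset.filter_and]
      exact hM1 i.1 j.1 i.2 j.2 (fun h => hij (Subtype.ext h)))
    (fun i j hij => by
      rw [← Finset.filter_and]
      exact hM2 i.1 j.1 i.2 j.2 (fun h => hij (Subtype.ext h)))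
    (fun x => by
      simp only [mem_filter, mem_univ, true_and]
      refine le_trans (sub_card U1 fun a => (a, x) ∈ S) ?_
      rw [← d2_eq]
      exact hD1 x)
    (fun y => by
      simp only [mem_filter, mem_univ, true_and]
      refine le_trans (sub_card U1 fun a => (y, a) ∈ K) ?_
      rw [← d1_eq]
      exact hD2 y)
    (by
      refine lt_of_le_of_lt ?_ hpot
      have h1 : (Fintype.card {a // a ∉ U1} : ℝ) ≤ n := by
        exact_mod_cast le_trans (Fintype.card_subtype_le _) hα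
      have h2 : ((Fintype.card β : ℝ) + Fintype.card γ) ≤ 2 * n := by
        have h3 : (Fintype.card β : ℝ) ≤ n := by exact_mod_cast hβ
        have h4 : (Fintype.card γ : ℝ) ≤ n := by exact_mod_cast hγ
        linarith
      have h3 : (0 : ℝ) ≤ (1 + (μ : ℝ) / R) ^ D := by positivity
      refine mul_le_mul_of_nonneg_right ?_ h3
      exact mul_le_mul h1 h2 (by positivity) (by positivity))
  have hPm : ∀ (a : α) (h : a ∉ U1) (x : β), (a, x) ∈ S →
      x ∈ (univ.filter fun b' => (a, b') ∈ S) := fun a _ x hx => by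
    simp only [mem_filter, mem_univ, true_and]; exact hx
  obtain ⟨P, hP⟩ : ∃ P : Finset (α × β × γ), ∀ T, T ∈ P ↔
      ∃ h : T.1 ∉ U1, (T.1, T.2.1) ∈ S ∧ M ⟨T.1, h⟩ T.2.1 = T.2.2 :=
    ⟨univ.filter fun T => ∃ h : T.1 ∉ U1, (T.1, T.2.1) ∈ S ∧ M ⟨T.1, h⟩ T.2.1 = T.2.2,
      fun T => by simp only [mem_filter, mem_univ, true_and]⟩
  have hiA : ∀ T ∈ P, ∀ T' ∈ P, eA T = eA T' → T = T' := by
    rintro ⟨a, x, y⟩ hT ⟨a', x', y'⟩ hT' he
    obtain ⟨h, h1, h2⟩ := (hP _).1 hT
    obtain ⟨h', h1', h2'⟩ := (hP _).1 hT'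
    obtain ⟨e1, e2⟩ := Prod.mk.inj he
    simp only at e1 e2 h2 h2'
    subst e1 e2
    rw [h2] at h2'
    rw [h2']
  have hiC : ∀ T ∈ P, ∀ T' ∈ P, eC T = eC T' → T = T' := by
    rintro ⟨a, x, y⟩ hT ⟨a', x', y'⟩ hT' he
    obtain ⟨h, h1, h2⟩ := (hP _).1 hT
    obtain ⟨h', h1', h2'⟩ := (hP _).1 hT'
    obtain ⟨e1, e2⟩ := Prod.mk.inj he
    simp only at e1 e2 h2 h2' h1 h1'
    subst e1 e2
    have : x = x' := (hbij ⟨a, h⟩).injOn (hPm a h x h1) (hPm a h x' h1') (h2.trans h2'.symm)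
    rw [this]
  have hsA : ∀ T ∈ P, eA T ∈ S := fun T hT => by
    obtain ⟨h, h1, h2⟩ := (hP _).1 hT
    exact h1
  have hsC : ∀ T ∈ P, eC T ∈ K := fun T hT => by
    obtain ⟨h, h1, h2⟩ := (hP _).1 hT
    have h3 := (hbij ⟨T.1, h⟩).mapsTo (hPm T.1 h T.2.1 h1)
    rw [h2] at h3
    have h4 : (T.2.2, T.1) ∈ K := by simpa using h3
    exact h4
  refine ⟨P, ⟨hsA, ?_, hsC, hiA, ?_, hiC⟩, ?_, ?_, ?_, ?_⟩
  · intro T hT
    obtain ⟨h, h1, h2⟩ := (hP _).1 hT
    have h3 := hMH ⟨T.1, h⟩ T.2.1 (hPm T.1 h T.2.1 h1)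
    rw [h2] at h3
    exact h3
  · rintro ⟨a, x, y⟩ hT ⟨a', x', y'⟩ hT' he
    obtain ⟨h, h1, h2⟩ := (hP _).1 hT
    obtain ⟨h', h1', h2'⟩ := (hP _).1 hT'
    obtain ⟨e1, e2⟩ := Prod.mk.inj he
    simp only at e1 e2 h2 h2' h1 h1' h h'
    subst e1 e2
    by_cases haa : a = a'
    · rw [haa]
    · exact absurd (h2.trans h2'.symm) (hdis ⟨a, h⟩ ⟨a', h'⟩
        (fun hh => haa (congrArg Subtype.val hh)) x (hPm a h x h1) (hPm a' h' x h1'))
  · ext e
    constructor
    · intro he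
      obtain ⟨T, hT, rfl⟩ := Finset.mem_image.1 he
      exact hsA T hT
    · intro he
      refine Finset.mem_image.2 ⟨(e.1, e.2, M ⟨e.1, hS e he⟩ e.2), (hP _).2 ⟨hS e he, he, rfl⟩, rfl⟩
  · ext e
    constructor
    · intro he
      obtain ⟨T, hT, rfl⟩ := Finset.mem_image.1 he
      exact hsC T hT
    · intro he
      have h3 : e.1 ∈ ((univ.filter fun c => (c, (⟨e.2, hK e he⟩ : {a // a ∉ U1}).1) ∈ K : Finset γ) :
          Set γ) := by
        simp only [coe_filter, mem_univ, true_and, Set.mem_ofPred_eq]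
        exact he
      obtain ⟨x, hx, hxe⟩ := (hbij ⟨e.2, hK e he⟩).surjOn h3
      have hx' : (e.2, x) ∈ S := by simpa using hx
      exact Finset.mem_image.2 ⟨(e.2, x, e.1), (hP _).2 ⟨hK e he, hx', hxe⟩, rfl⟩
  · intro x
    refine le_trans ?_ (hD1 x)
    have h1 : d1 (P.image eB) x ≤ (P.filter fun T => T.2.1 = x).card := by
      unfold d1
      refine le_trans (Finset.card_le_card ?_) (Finset.card_image_le (f := eB))
      intro e he
      obtain ⟨he, hx⟩ := Finset.mem_filter.1 he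
      obtain ⟨T, hT, rfl⟩ := Finset.mem_image.1 he
      exact Finset.mem_image.2 ⟨T, Finset.mem_filter.2 ⟨hT, hx⟩, rfl⟩
    refine le_trans h1 ?_
    unfold d2
    refine Finset.card_le_card_of_injOn eA ?_ ?_
    · intro T hT
      obtain ⟨hT, hx⟩ := Finset.mem_filter.1 (Finset.mem_coe.1 hT)
      exact Finset.mem_coe.2 (Finset.mem_filter.2 ⟨hsA T hT, hx⟩)
    · intro T hT T' hT' he
      exact hiA T (Finset.mem_filter.1 (Finset.mem_coe.1 hT)).1 T'
        (Finset.mem_filter.1 (Finset.mem_coe.1 hT')).1 he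
  · intro y
    refine le_trans ?_ (hD2 y)
    have h1 : d2 (P.image eB) y ≤ (P.filter fun T => T.2.2 = y).card := by
      unfold d2
      refine le_trans (Finset.card_le_card ?_) (Finset.card_image_le (f := eB))
      intro e he
      obtain ⟨he, hx⟩ := Finset.mem_filter.1 he
      obtain ⟨T, hT, rfl⟩ := Finset.mem_image.1 he
      exact Finset.mem_image.2 ⟨T, Finset.mem_filter.2 ⟨hT, hx⟩, rfl⟩
    refine le_trans h1 ?_
    unfold d1
    refine Finset.card_le_card_of_injOn eC ?_ ?_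
    · intro T hT
      obtain ⟨hT, hx⟩ := Finset.mem_filter.1 (Finset.mem_coe.1 hT)
      exact Finset.mem_coe.2 (Finset.mem_filter.2 ⟨hsC T hT, hx⟩)
    · intro T hT T' hT' he
      exact hiC T (Finset.mem_filter.1 (Finset.mem_coe.1 hT)).1 T'
        (Finset.mem_filter.1 (Finset.mem_coe.1 hT')).1 he

end Pool.Agent.Helper78.IAC
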